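import Pool.Agent.Helper69.SB.Lat
import Pool.Agent.Helper3.CL.Defs

/-!
# Project CL, piece B6: pigeonhole with the boxes `A ^ i B ^ j`
-/

set_option autoImplicit false

namespace Pool.Agent.Helper69.CL

open NumberField Module Finset Pool.Agent.Helper16.CB Pool.Agent.Helper35.CB
  Pool.Agent.Helper69.SB

section

variable {ℓ : ℕ} [NeZero ℓ]

/-- extension by zero as a homomorphism -/
def ext0Hom (R : Type*) [AddCommGroup R] : (IX ℓ → R) →+ (Fin ℓ → Fin ℓ → R) :=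
  AddMonoidHom.mk' (fun v => ext0 v) (by
    intro v w
    funext r s
    exact ext0_add v w r s)

omit [NeZero ℓ] in
theorem sum_fin_val : ∑ r : Fin ℓ, (r : ℕ) = ℓ * (ℓ - 1) / 2 := by
  rw [Fin.sum_univ_eq_sum_range (fun i => i) ℓ, Finset.sum_range_id]

theorem prod_Y (A B : ℝ) :
    ∏ x : IX ℓ, A ^ (x.1.1 : ℕ) * B ^ (x.1.2 : ℕ) =
      (A ^ ℓ) ^ (ℓ * (ℓ - 1) / 2) * (B ^ ℓ) ^ (ℓ * (ℓ - 1) / 2) := by
  classical
  rw [prod_mul_distrib, prod_pow_eq_pow_sum, prod_pow_eq_pow_sum, ← pow_mul, ← pow_mul]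
  have h0 : ∀ f : Fin ℓ × Fin ℓ → ℕ, f (0, 0) = 0 → ∑ x : IX ℓ, f x.1 = ∑ x, f x := by
    intro f hf
    rw [← sum_erase_add _ _ (mem_univ ((0, 0) : Fin ℓ × Fin ℓ)), hf, add_zero]
    rw [← sum_subtype]
    intro x
    simp
  have h1 : ∑ x : IX ℓ, (x.1.1 : ℕ) = ℓ * (ℓ * (ℓ - 1) / 2) := by
    rw [h0 (fun x => (x.1 : ℕ)) (by simp), Fintype.sum_prod_type]
    simp only [sum_const, card_univ, Fintype.card_fin, smul_eq_mul]
    rw [← mul_sum, sum_fin_val]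
  have h2 : ∑ x : IX ℓ, (x.1.2 : ℕ) = ℓ * (ℓ * (ℓ - 1) / 2) := by
    rw [h0 (fun x => (x.2 : ℕ)) (by simp), Fintype.sum_prod_type]
    simp only [sum_const, card_univ, Fintype.card_fin, smul_eq_mul]
    rw [sum_fin_val]
  rw [h1, h2]

/-- B6, for `ℓ > 1` -/
theorem mink_aux (L : Type*) [Field L] [NumberField L] (hℓ : 1 < ℓ) (c : ℝ) :
    ∃ C : ℝ, 0 < C ∧ ∀ a b : 𝓞 L, a ≠ 0 → b ≠ 0 → Bal c a → Bal c b →
      ∀ G : AddSubgroup (Fin ℓ → Fin ℓ → 𝓞 L), G.index ≠ 0 →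
        G.index ≤ Ideal.absNorm (Ideal.span {a * b}) ^ (ℓ * (ℓ - 1) / 2) →
        ∃ d ∈ G, d ≠ 0 ∧ (∀ i j : Fin ℓ, (i : ℕ) = 0 → (j : ℕ) = 0 → d i j = 0) ∧
          ∀ (φ : L →+* ℂ) (i j : Fin ℓ), ‖φ (d i j)‖ ≤
            C * (‖φ a‖ ^ (1 / (ℓ : ℝ))) ^ (i : ℕ) * (‖φ b‖ ^ (1 / (ℓ : ℝ))) ^ (j : ℕ) := by
  classical
  have hℓ0 : 0 < ℓ := by omega
  set c' : ℝ := max c 1 with hc'
  have hc1 : 1 ≤ c' := le_max_right _ _
  have hS := SS_nonneg L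
  refine ⟨c' ^ ℓ * c' ^ ℓ * (SS L + 1), by positivity, ?_⟩
  intro a b ha hb hBa hBb G hG hidx
  have hne : Nonempty (IX ℓ) := ⟨⟨(⟨1, hℓ⟩, 0), by
    intro h0
    have h1 := congrArg (fun x => (x.1 : ℕ)) h0
    simp at h1⟩⟩
  set G' : AddSubgroup (IX ℓ → 𝓞 L) := G.comap (ext0Hom (𝓞 L)) with hG'
  have hdvd : G'.index ∣ G.index := by
    rw [hG', AddSubgroup.index_comap]
    exact AddSubgroup.relIndex_dvd_index_of_normal _ _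
  have hG'0 : G'.index ≠ 0 := fun h0 => hG (by rw [h0, zero_dvd_iff] at hdvd; exact hdvd)
  have hG'le : G'.index ≤ G.index := Nat.le_of_dvd (Nat.pos_of_ne_zero hG) hdvd
  have hidx' : ((G'.index : ℕ) : ℝ) ≤
      (∏ x : IX ℓ, sz ℓ a ^ (x.1.1 : ℕ) * sz ℓ b ^ (x.1.2 : ℕ)) ^ finrank ℚ L := by
    have h5 : ∀ c : 𝓞 L, ((sz ℓ c ^ ℓ) ^ (ℓ * (ℓ - 1) / 2)) ^ finrank ℚ L =
        (Ideal.absNorm (Ideal.span {c}) : ℝ) ^ (ℓ * (ℓ - 1) / 2) := by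
      intro c
      rw [← pow_mul, mul_comm (ℓ * (ℓ - 1) / 2), pow_mul, sz_pow' hℓ0]
    rw [prod_Y, mul_pow, h5, h5, ← mul_pow]
    have h6 : (Ideal.absNorm (Ideal.span {a}) : ℝ) * Ideal.absNorm (Ideal.span {b}) =
        (Ideal.absNorm (Ideal.span {a * b}) : ℝ) := by
      rw [← Ideal.span_singleton_mul_span_singleton, map_mul]
      push_cast
      rfl
    rw [h6]
    exact_mod_cast hG'le.trans hidx
  obtain ⟨v, hv, hv0, hvs⟩ := pigeon G' hG'0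
    (fun x => sz ℓ a ^ (x.1.1 : ℕ) * sz ℓ b ^ (x.1.2 : ℕ))
    (fun x => one_le_mul_of_one_le_of_one_le (one_le_pow₀ (one_le_sz ha))
      (one_le_pow₀ (one_le_sz hb))) hidx'
  have hsz : ∀ (φ : L →+* ℂ) (x : 𝓞 L), x ≠ 0 → Bal c x → ∀ i : Fin ℓ,
      sz ℓ x ^ (i : ℕ) ≤ c' ^ ℓ * (‖φ x‖ ^ (1 / (ℓ : ℝ))) ^ (i : ℕ) := by
    intro φ x hx hB i
    have h1 : sz ℓ x ≤ c' * ‖φ x‖ ^ (1 / (ℓ : ℝ)) := by
      have h2 : sz ℓ x ≤ (c' * ‖φ x‖) ^ (1 / (ℓ : ℝ)) := by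
        unfold sz
        refine Real.rpow_le_rpow (by positivity) ?_ (by positivity)
        exact (hB φ).2.trans (mul_le_mul_of_nonneg_right (le_max_left _ _) (norm_nonneg _))
      rw [Real.mul_rpow (by positivity) (norm_nonneg _)] at h2
      refine h2.trans (mul_le_mul_of_nonneg_right ?_ (by positivity))
      have h3 : 1 / (ℓ : ℝ) ≤ 1 := by
        rw [div_le_one (by exact_mod_cast hℓ0)]
        exact_mod_cast hℓ0
      calc c' ^ (1 / (ℓ : ℝ)) ≤ c' ^ (1 : ℝ) := Real.rpow_le_rpow_of_exponent_le hc1 h3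
        _ = c' := Real.rpow_one _
    have h4 := one_le_sz (ℓ := ℓ) hx
    calc sz ℓ x ^ (i : ℕ) ≤ (c' * ‖φ x‖ ^ (1 / (ℓ : ℝ))) ^ (i : ℕ) :=
          pow_le_pow_left₀ (by linarith) h1 _
      _ = c' ^ (i : ℕ) * (‖φ x‖ ^ (1 / (ℓ : ℝ))) ^ (i : ℕ) := mul_pow _ _ _
      _ ≤ _ := mul_le_mul_of_nonneg_right (pow_le_pow_right₀ hc1 i.2.le) (by positivity)
  refine ⟨ext0 v, hv, ?_, ?_, ?_⟩
  · intro h0
    apply hv0
    funext x
    have h1 := congrFun (congrFun h0 x.1.1) x.1.2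
    unfold ext0 at h1
    rw [dif_pos x.2] at h1
    exact h1
  · intro i j hi hj
    have h1 : i = 0 := Fin.ext (by rw [hi, Fin.val_zero])
    have h2 : j = 0 := Fin.ext (by rw [hj, Fin.val_zero])
    rw [h1, h2]
    exact ext0_zero v
  · intro φ i j
    unfold ext0
    by_cases hrs : (i, j) ≠ (0, 0)
    · rw [dif_pos hrs]
      refine (hvs ⟨(i, j), hrs⟩ φ).trans ?_
      have h1 := one_le_sz (ℓ := ℓ) ha
      have h2 := one_le_sz (ℓ := ℓ) hb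
      calc sz ℓ a ^ (i : ℕ) * sz ℓ b ^ (j : ℕ) * SS L
          ≤ (c' ^ ℓ * (‖φ a‖ ^ (1 / (ℓ : ℝ))) ^ (i : ℕ)) *
            (c' ^ ℓ * (‖φ b‖ ^ (1 / (ℓ : ℝ))) ^ (j : ℕ)) * (SS L + 1) := by
            apply mul_le_mul _ (by linarith) hS (by positivity)
            exact mul_le_mul (hsz φ a ha hBa i) (hsz φ b hb hBb j) (by positivity) (by positivity)
        _ = _ := by ring
    · rw [dif_neg hrs]
      simp only [map_zero, norm_zero]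
      positivity

end

/-- B6 -/
theorem mink (L : Type*) [Field L] [NumberField L] {l : ℕ} (hl : l.Prime) {c : ℝ} (_ : 0 < c) :
    ∃ C : ℝ, 0 < C ∧ ∀ a b : 𝓞 L, a ≠ 0 → b ≠ 0 → Bal c a → Bal c b →
      ∀ G : AddSubgroup (Fin l → Fin l → 𝓞 L), G.index ≠ 0 →
        G.index ≤ Ideal.absNorm (Ideal.span {a * b}) ^ (l * (l - 1) / 2) →
        ∃ d ∈ G, d ≠ 0 ∧ (∀ i j : Fin l, (i : ℕ) = 0 → (j : ℕ) = 0 → d i j = 0) ∧
          ∀ (φ : L →+* ℂ) (i j : Fin l), ‖φ (d i j)‖ ≤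
            C * (‖φ a‖ ^ (1 / (l : ℝ))) ^ (i : ℕ) * (‖φ b‖ ^ (1 / (l : ℝ))) ^ (j : ℕ) := by
  have : NeZero l := ⟨hl.pos.ne'⟩
  exact mink_aux L hl.one_lt c

end Pool.Agent.Helper69.CL
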